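import Pool.Agent.H21_s2.Bundle
import Pool.Agent.H21_s2.Top2

/-!
The nontrivial sphere bundles over the two-sphere are closed simply connected manifolds with almost
nonnegative curvature operator, in every dimension `n ≥ 4`.
-/

noncomputable section

namespace Pool.Agent.Results.MP_b7dcac_gt.HopfSphereBundles

open Pool.Agent.H21_anco Pool.Agent.H21_s2

/-- For every `n ≥ 4` the unit sphere bundle of the sum of the line bundle of degree `±1` over `S^2`
and the trivial bundle `ℝ^(n-3)`, i.e. the nontrivial `S^(n-2)`-bundle over `S^2`, is a closed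
simply connected `n`-manifold with almost nonnegative curvature operator. -/
theorem result (n : ℕ) (hn : 4 ≤ n) :
    Pub.IsClosedManifold (hopfBundle (n - 3)) n ∧ IsSimplyConnected (hopfBundle (n - 3)) ∧
      Pub.ANCO (hopfBundle (n - 3)) n := by
  obtain ⟨m, rfl⟩ : ∃ m, n = m + 1 + 3 := ⟨n - 4, by omega⟩
  have h : m + 1 + 3 - 3 = m + 1 := by omega
  rw [h]
  exact ⟨(hopfBundle_spec (m + 1)).1, simplyConnected_hopfBundle m, (hopfBundle_spec (m + 1)).2⟩

end Pool.Agent.Results.MP_b7dcac_gt.HopfSphereBundles
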